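import Pool.Agent.N126.RC.Stm

/-!
Project RC, part MULT: multiplicities at the places from ideal memberships.
-/

set_option autoImplicit false

open FF MvPolynomial Pool.Agent.W603.LV Pool.Agent.W603.PV

namespace Pool.Agent.N617.RC

open Pool.Agent.N126.RC

section

variable {K : Type} [Field K] {σ ι : Type}

/-- a polynomial with coefficients in the image of `E` -/
theorem lift {E : Type} [Field E] (ψ : E →+* K) (f : MvPolynomial σ K)
    (h : ∀ t ∈ f.coeffs, t ∈ ψ.range) : ∃ f' : MvPolynomial σ E, map ψ f' = f := by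
  have : f ∈ Set.range (map ψ : MvPolynomial σ E →+* MvPolynomial σ K) := by
    rw [mem_range_map_iff_coeffs_subset]
    intro t ht
    exact h t ht
  exact this

/-- the polynomials which vanish at the common zeros of the `G i` over all fields -/
def Z0 (G : ι → MvPolynomial σ K) (f : MvPolynomial σ K) : Prop :=
  ∃ T : Finset K, ∀ (E : Type) [Field E] (ψ : E →+* K), (∀ t ∈ T, t ∈ ψ.range) →
    ∀ (L : Type) [Field L] (φ : E →+* L) (z : σ → L),
      (∀ i g, map ψ g = G i → eval₂ φ z g = 0) → ∀ f', map ψ f' = f → eval₂ φ z f' = 0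

open Classical in
/-- the ideal of these polynomials -/
def Zid (G : ι → MvPolynomial σ K) : Ideal (MvPolynomial σ K) where
  carrier := {f | Z0 G f}
  zero_mem' := by
    refine ⟨∅, ?_⟩
    intro E _ ψ _ L _ φ z _ f' hf'
    have : f' = 0 := map_injective ψ ψ.injective (by rw [hf', map_zero])
    rw [this, eval₂_zero]
  add_mem' := by
    rintro a b ⟨Ta, ha⟩ ⟨Tb, hb⟩
    refine ⟨Ta ∪ Tb ∪ a.coeffs ∪ b.coeffs, ?_⟩
    intro E _ ψ hT L _ φ z hz f' hf'
    obtain ⟨a', ha'⟩ := lift ψ a (fun t ht => hT t (by simp [ht]))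
    obtain ⟨b', hb'⟩ := lift ψ b (fun t ht => hT t (by simp [ht]))
    have e : f' = a' + b' := map_injective ψ ψ.injective (by rw [hf', map_add, ha', hb'])
    rw [e, eval₂_add, ha E ψ (fun t ht => hT t (by simp [ht])) L φ z hz a' ha',
      hb E ψ (fun t ht => hT t (by simp [ht])) L φ z hz b' hb', add_zero]
  smul_mem' := by
    rintro c a ⟨Ta, ha⟩
    refine ⟨Ta ∪ a.coeffs ∪ c.coeffs, ?_⟩
    intro E _ ψ hT L _ φ z hz f' hf'
    obtain ⟨a', ha'⟩ := lift ψ a (fun t ht => hT t (by simp [ht]))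
    obtain ⟨c', hc'⟩ := lift ψ c (fun t ht => hT t (by simp [ht]))
    have e : f' = c' * a' := map_injective ψ ψ.injective (by rw [hf', map_mul, ha', hc', smul_eq_mul])
    rw [e, eval₂_mul, ha E ψ (fun t ht => hT t (by simp [ht])) L φ z hz a' ha', mul_zero]

theorem span_le_Zid (G : ι → MvPolynomial σ K) : Ideal.span (Set.range G) ≤ Zid G := by
  rw [Ideal.span_le]
  rintro _ ⟨i, rfl⟩
  exact ⟨∅, fun _ _ _ _ _ _ _ _ hz f' hf' => hz i f' hf'⟩

/-- the polynomials whose values have order at least `N` at the common zeros of the `G i` at which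
`H` has order at least `1` -/
def V0 (G : ι → MvPolynomial σ K) (H : MvPolynomial σ K) (N : ℤ) (f : MvPolynomial σ K) : Prop :=
  ∃ T : Finset K, ∀ (E : Type) [Field E] (ψ : E →+* K), (∀ t ∈ T, t ∈ ψ.range) →
    ∀ (κ L : Type) [Field κ] [Field L] [Algebra κ L] (P : Place κ L) (φ : E →+* L) (z : σ → L),
      (∀ s, ψ s ∈ T → Ge P 0 (φ s)) → (∀ a, Ge P 0 (z a)) →
      (∀ i g, map ψ g = G i → eval₂ φ z g = 0) →
      (∀ g, map ψ g = H → Ge P 1 (eval₂ φ z g)) →
      ∀ f', map ψ f' = f → Ge P N (eval₂ φ z f')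

theorem eval_int {E : Type} [Field E] (ψ : E →+* K) {κ L : Type} [Field κ] [Field L] [Algebra κ L]
    (P : Place κ L) (φ : E →+* L) (z : σ → L) (f : MvPolynomial σ K) (f' : MvPolynomial σ E)
    (hf : map ψ f' = f) (h1 : ∀ s, ψ s ∈ f.coeffs → Ge P 0 (φ s)) (h2 : ∀ a, Ge P 0 (z a)) :
    Ge P 0 (eval₂ φ z f') := by
  rw [eval₂_eq]
  refine Ge.sum _ _ fun α hα => ?_
  have h3 : Ge P 0 (φ (f'.coeff α)) := by
    apply h1
    rw [mem_coeffs_iff]
    refine ⟨α, ?_, ?_⟩
    · rw [mem_support_iff, ← hf, coeff_map]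
      intro h
      exact (mem_support_iff.1 hα) ((map_eq_zero ψ).1 h)
    · rw [← hf, coeff_map]
  have h4 : Ge P (∑ i ∈ α.support, (α i : ℤ) * 0) (∏ i ∈ α.support, z i ^ α i) :=
    Ge.prod _ _ _ fun i _ => (h2 i).pow (α i)
  have h5 := h3.mul h4
  simpa using h5

theorem V0_zero (G : ι → MvPolynomial σ K) (H f : MvPolynomial σ K) : V0 G H 0 f := by
  refine ⟨f.coeffs, ?_⟩
  intro E _ ψ hT κ L _ _ _ P φ z h1 h2 _ _ f' hf'
  exact eval_int ψ P φ z f f' hf' h1 h2

theorem V0_mul (G : ι → MvPolynomial σ K) (H : MvPolynomial σ K) {N M : ℤ} {a b : MvPolynomial σ K}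
    (ha : V0 G H N a) (hb : V0 G H M b) : V0 G H (N + M) (a * b) := by
  classical
  obtain ⟨Ta, ha⟩ := ha
  obtain ⟨Tb, hb⟩ := hb
  refine ⟨Ta ∪ Tb ∪ a.coeffs ∪ b.coeffs, ?_⟩
  intro E _ ψ hT κ L _ _ _ P φ z h1 h2 h3 h4 f' hf'
  obtain ⟨a', ha'⟩ := lift ψ a (fun t ht => hT t (by simp [ht]))
  obtain ⟨b', hb'⟩ := lift ψ b (fun t ht => hT t (by simp [ht]))
  have e : f' = a' * b' := map_injective ψ ψ.injective (by rw [hf', map_mul, ha', hb'])
  rw [e, eval₂_mul]
  exact (ha E ψ (fun t ht => hT t (by simp [ht])) κ L P φ z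
    (fun s hs => h1 s (by simp [hs])) h2 h3 h4 a' ha').mul
    (hb E ψ (fun t ht => hT t (by simp [ht])) κ L P φ z
    (fun s hs => h1 s (by simp [hs])) h2 h3 h4 b' hb')

/-- the ideal of these polynomials -/
def Vid (G : ι → MvPolynomial σ K) (H : MvPolynomial σ K) (N : ℤ) : Ideal (MvPolynomial σ K) where
  carrier := {f | V0 G H N f}
  zero_mem' := by
    refine ⟨∅, ?_⟩
    intro E _ ψ _ κ L _ _ _ P φ z _ _ _ _ f' hf'
    have : f' = 0 := map_injective ψ ψ.injective (by rw [hf', map_zero])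
    rw [this, eval₂_zero]
    exact Ge.zero
  add_mem' := by
    classical
    rintro a b ⟨Ta, ha⟩ ⟨Tb, hb⟩
    refine ⟨Ta ∪ Tb ∪ a.coeffs ∪ b.coeffs, ?_⟩
    intro E _ ψ hT κ L _ _ _ P φ z h1 h2 h3 h4 f' hf'
    obtain ⟨a', ha'⟩ := lift ψ a (fun t ht => hT t (by simp [ht]))
    obtain ⟨b', hb'⟩ := lift ψ b (fun t ht => hT t (by simp [ht]))
    have e : f' = a' + b' := map_injective ψ ψ.injective (by rw [hf', map_add, ha', hb'])
    rw [e, eval₂_add]
    exact (ha E ψ (fun t ht => hT t (by simp [ht])) κ L P φ z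
      (fun s hs => h1 s (by simp [hs])) h2 h3 h4 a' ha').add
      (hb E ψ (fun t ht => hT t (by simp [ht])) κ L P φ z
      (fun s hs => h1 s (by simp [hs])) h2 h3 h4 b' hb')
  smul_mem' := by
    intro c a ha
    have h := V0_mul G H (V0_zero G H c) ha
    rw [zero_add] at h
    exact h

theorem span_le_Vid (G : ι → MvPolynomial σ K) (H : MvPolynomial σ K) (N : ℤ) :
    Ideal.span (Set.range G) ≤ Vid G H N := by
  rw [Ideal.span_le]
  rintro _ ⟨i, rfl⟩
  exact ⟨∅, fun _ _ _ _ _ _ _ _ _ _ _ _ _ _ hz _ f' hf' => Or.inl (hz i f' hf')⟩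

theorem H_mem_Vid (G : ι → MvPolynomial σ K) (H : MvPolynomial σ K) : H ∈ Vid G H 1 :=
  ⟨∅, fun _ _ _ _ _ _ _ _ _ _ _ _ _ _ _ hz f' hf' => hz f' hf'⟩

theorem root_mem (G : ι → MvPolynomial σ K) (H f : MvPolynomial σ K) (N : ℕ)
    (h : f ^ N ∈ Vid G H 1) : f ∈ Vid G H 1 := by
  classical
  obtain ⟨T, hT⟩ := h
  refine ⟨T, ?_⟩
  intro E _ ψ hT' κ L _ _ _ P φ z h1 h2 h3 h4 f' hf'
  have h5 := hT E ψ hT' κ L P φ z h1 h2 h3 h4 (f' ^ N) (by rw [map_pow, hf'])
  rw [eval₂_pow] at h5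
  rcases h5 with h5 | h5
  · exact Or.inl (eq_zero_of_pow_eq_zero h5)
  · right
    rw [P.ord_pow] at h5
    by_contra h6
    have h7 : P.ord (eval₂ φ z f') ≤ 0 := by omega
    have h8 : (N : ℤ) * P.ord (eval₂ φ z f') ≤ 0 :=
      mul_nonpos_of_nonneg_of_nonpos (Nat.cast_nonneg N) h7
    omega

theorem pow_le (G : ι → MvPolynomial σ K) (H : MvPolynomial σ K) (I : Ideal (MvPolynomial σ K))
    (hI : I ≤ Vid G H 1) (q : ℕ) : I ^ q ≤ Vid G H q := by
  induction q with
  | zero =>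
    intro f _
    exact V0_zero G H f
  | succ q ih =>
    rw [pow_succ, Ideal.mul_le]
    intro a ha b hb
    have h := V0_mul G H (ih ha) (hI hb)
    push_cast
    exact h

end

/-- integral elements over the integral elements are integral -/
theorem int_of_monic {κ L : Type} [Field κ] [Field L] [Algebra κ L] (P : Place κ L) (D : ℕ)
    (a : ℕ → L) (ha : ∀ i < D, Ge P 0 (a i)) (U : L) (h : U ^ D + ∑ i ∈ Finset.range D, a i * U ^ i = 0) :
    Ge P 0 U := by
  by_contra hU
  have hU0 : U ≠ 0 := fun h0 => hU (Or.inl h0)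
  have hUo : P.ord U < 0 := by
    by_contra h1
    exact hU (Or.inr (by omega))
  have h1 : Ge P ((D - 1 : ℤ) * P.ord U) (-∑ i ∈ Finset.range D, a i * U ^ i) := by
    refine Ge.neg (Ge.sum _ _ fun i hi => ?_)
    have hi' : i < D := Finset.mem_range.1 hi
    have h2 : Ge P (P.ord U) U := Or.inr le_rfl
    have h3 := (ha i hi').mul (h2.pow i)
    refine h3.mono ?_
    rw [zero_add]
    have h4 : (i : ℤ) ≤ D - 1 := by omega
    exact mul_le_mul_of_nonpos_right h4 hUo.le
  have h2 : U ^ D = -∑ i ∈ Finset.range D, a i * U ^ i := by linear_combination h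
  rw [← h2] at h1
  rcases h1 with h1 | h1
  · exact hU0 (eq_zero_of_pow_eq_zero h1)
  · rw [P.ord_pow] at h1
    have : (D : ℤ) * P.ord U - (D - 1) * P.ord U = P.ord U := by ring
    omega

/-- values of weighted homogeneous polynomials at scaled points -/
theorem eval_scale {E L σ : Type} [Field E] [Field L] (φ : E →+* L) (w : σ → ℕ) (c : ℕ)
    (g : MvPolynomial σ E) (hg : g.IsWeightedHomogeneous w c) (lam : L) (z z' : σ → L)
    (hz : ∀ a, z a = lam ^ w a * z' a) : eval₂ φ z g = lam ^ c * eval₂ φ z' g := by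
  rw [eval₂_eq, eval₂_eq, Finset.mul_sum]
  refine Finset.sum_congr rfl fun α hα => ?_
  have h1 : Finsupp.weight w α = c := hg (mem_support_iff.1 hα)
  have h2 : ∏ i ∈ α.support, z i ^ α i = lam ^ c * ∏ i ∈ α.support, z' i ^ α i := by
    rw [← h1, Finsupp.weight_apply, Finsupp.sum, ← Finset.prod_pow_eq_pow_sum,
      ← Finset.prod_mul_distrib]
    refine Finset.prod_congr rfl fun i _ => ?_
    rw [hz i, mul_pow, ← pow_mul, smul_eq_mul, mul_comm (α i)]
  rw [h2]
  ring

theorem whom_of_map {E K σ : Type} [Field E] [Field K] (ψ : E →+* K) (w : σ → ℕ) (c : ℕ)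
    (g : MvPolynomial σ E) (h : (map ψ g).IsWeightedHomogeneous w c) :
    g.IsWeightedHomogeneous w c := by
  intro α hα
  apply h
  rw [coeff_map]
  exact (map_ne_zero ψ).2 hα

theorem main_MULT : S_MULT := by
  classical
  intro K _ n W ι _ e G F d q hG hF hFin hRam
  obtain ⟨s, r, N, v, hv1, hv2⟩ := hRam
  set H : MvPolynomial (Fin (n + 1) ⊕ W) K := rename Sum.inl F with hH
  have hvV : ∀ j, v j ∈ Vid G H 1 := by
    intro j
    refine root_mem G H (v j) N ?_
    have h1 : Ideal.span {H} ⊔ Ideal.span (Set.range G) ≤ Vid G H 1 := by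
      refine sup_le ?_ (span_le_Vid G H 1)
      rw [Ideal.span_le, Set.singleton_subset_iff]
      exact H_mem_Vid G H
    exact h1 (hv2 j)
  have hJ : ∀ i, X (Sum.inl i) ^ r * H ∈ Vid G H q := by
    intro i
    have h1 : Ideal.span (Set.range v) ^ q ⊔ Ideal.span (Set.range G) ≤ Vid G H q := by
      refine sup_le (pow_le G H _ ?_ q) (span_le_Vid G H q)
      rw [Ideal.span_le]
      rintro _ ⟨j, rfl⟩
      exact hvV j
    exact h1 (hv1 i)
  choose T1 hT1 using hJ
  choose p hp1 hp2 using hFin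
  choose T2 hT2 using fun w => span_le_Zid G (hp2 w)
  have := Fintype.ofFinite W
  obtain ⟨T, hTdef⟩ : ∃ T : Finset K, T = Finset.univ.biUnion T1 ∪ Finset.univ.biUnion T2 ∪
    Finset.univ.biUnion (fun w => (Finset.range (p w).natDegree).biUnion
      fun i => ((p w).coeff i).coeffs) := ⟨_, rfl⟩
  have hTa : ∀ i, ∀ t ∈ T1 i, t ∈ T := by
    intro i t ht
    rw [hTdef]
    simp only [Finset.mem_union, Finset.mem_biUnion, Finset.mem_univ, true_and]
    exact Or.inl (Or.inl ⟨i, ht⟩)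
  have hTb : ∀ w, ∀ t ∈ T2 w, t ∈ T := by
    intro w t ht
    rw [hTdef]
    simp only [Finset.mem_union, Finset.mem_biUnion, Finset.mem_univ, true_and]
    exact Or.inl (Or.inr ⟨w, ht⟩)
  have hTc : ∀ w, ∀ i < (p w).natDegree, ∀ t ∈ ((p w).coeff i).coeffs, t ∈ T := by
    intro w i hi t ht
    rw [hTdef]
    simp only [Finset.mem_union, Finset.mem_biUnion, Finset.mem_univ, true_and]
    exact Or.inr ⟨w, i, Finset.mem_range.2 hi, ht⟩
  refine ⟨T, ?_⟩
  intro E _ ψ hT G' F' hG' hF'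
  refine ⟨T.preimage ψ ψ.injective.injOn, ?_⟩
  intro κ L _ _ _ P φ hS x u hx hxu hFx hord
  have hS' : ∀ s, ψ s ∈ T → Ge P 0 (φ s) := fun s hs => hS s (Finset.mem_preimage.2 hs)
  obtain ⟨j0, hj0, hj0'⟩ := exists_pord P (Function.ne_iff.1 hx)
  obtain ⟨lam, hlam⟩ : ∃ lam, lam = x j0 := ⟨_, rfl⟩
  have hlam0 : lam ≠ 0 := by rw [hlam]; exact hj0
  have hlamo : P.ord lam = pord P x := by rw [hlam]; exact hj0'
  obtain ⟨z', hz'⟩ : ∃ z' : Fin (n + 1) ⊕ W → L, z' = fun a => Sum.elim x u a / lam ^ wts e a :=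
    ⟨_, rfl⟩
  have hzz : ∀ a, Sum.elim x u a = lam ^ wts e a * z' a := by
    intro a
    rw [hz']
    field_simp
  have hx' : ∀ j, Ge P 0 (z' (Sum.inl j)) := by
    intro j
    refine Ge.of_mul' (h := lam) (m := pord P x) hlam0 hlamo ?_
    have h1 : lam * z' (Sum.inl j) = x j := by
      have := hzz (Sum.inl j)
      simp only [wts, Sum.elim_inl, pow_one] at this
      exact this.symm
    rw [h1, zero_add]
    exact ge_pord P x j
  have hvan : ∀ i g, map ψ g = G i → eval₂ φ z' g = 0 := by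
    intro i g hg
    obtain ⟨c, hc⟩ := hG i
    have hgG : g = G' i := map_injective ψ ψ.injective (by rw [hg, hG' i])
    have hc' : g.IsWeightedHomogeneous (wts e) c := whom_of_map ψ _ _ _ (by rw [hg]; exact hc)
    have h1 := eval_scale φ (wts e) c g hc' lam (Sum.elim x u) z' hzz
    rw [hgG, hxu i, ← hgG] at h1
    exact (mul_eq_zero.1 h1.symm).resolve_left (pow_ne_zero _ hlam0)
  have hu' : ∀ w, Ge P 0 (z' (Sum.inr w)) := by
    intro w
    have hex : ∀ i, ∃ c' : MvPolynomial (Fin (n + 1)) E, i < (p w).natDegree →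
        map ψ c' = (p w).coeff i := by
      intro i
      by_cases hi : i < (p w).natDegree
      · obtain ⟨c', hc'⟩ := lift ψ ((p w).coeff i) (fun t ht => hT t (hTc w i hi t ht))
        exact ⟨c', fun _ => hc'⟩
      · exact ⟨0, fun h => absurd h hi⟩
    choose c' hc' using hex
    have h1 : map ψ (X (Sum.inr w) ^ (p w).natDegree +
        ∑ i ∈ Finset.range (p w).natDegree, rename Sum.inl (c' i) * X (Sum.inr w) ^ i) =
        (p w).eval₂ (rename Sum.inl).toRingHom (X (Sum.inr w)) := by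
      rw [Polynomial.eval₂_eq_sum_range, Finset.sum_range_succ, map_add, map_pow, map_X, map_sum]
      refine (add_comm _ _).trans ?_
      congr 1
      · refine Finset.sum_congr rfl fun i hi => ?_
        rw [map_mul, map_pow, map_X, map_rename, hc' i (Finset.mem_range.1 hi)]
        rfl
      · rw [Polynomial.Monic.coeff_natDegree (hp1 w), map_one, one_mul]
    have h2 := hT2 w E ψ (fun t ht => hT t (hTb w t ht)) L φ z' hvan _ h1
    rw [eval₂_add, eval₂_pow, eval₂_X, eval₂_sum] at h2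
    refine int_of_monic P (p w).natDegree (fun i => eval₂ φ z' (rename Sum.inl (c' i))) ?_ _ ?_
    · intro i hi
      show Ge P 0 (eval₂ φ z' (rename Sum.inl (c' i)))
      rw [eval₂_rename]
      exact eval_int ψ P φ _ _ _ (hc' i hi) (fun s hs => hS' s (hTc w i hi _ hs)) hx'
    · rw [← h2]
      congr 1
      refine Finset.sum_congr rfl fun i _ => ?_
      rw [eval₂_mul, eval₂_pow, eval₂_X]
  have hint : ∀ a, Ge P 0 (z' a) := by
    rintro (j | w)
    · exact hx' j
    · exact hu' w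
  -- the value of the form
  have hmF : map ψ (rename Sum.inl F' : MvPolynomial (Fin (n + 1) ⊕ W) E) = H := by
    rw [map_rename, hF']
  obtain ⟨f, hf⟩ : ∃ f, f = eval₂ φ z' (rename Sum.inl F' : MvPolynomial (Fin (n + 1) ⊕ W) E) :=
    ⟨_, rfl⟩
  have hFf : eval₂ φ x F' = lam ^ d * f := by
    have hF1 : F'.IsWeightedHomogeneous (fun _ => 1) d :=
      whom_of_map ψ _ _ _ (by rw [hF']; exact hF)
    have h1 := eval_scale φ (fun _ => 1) d F' hF1 lam x (z' ∘ Sum.inl) (by
      intro a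
      have := hzz (Sum.inl a)
      simp only [wts, Sum.elim_inl] at this
      exact this)
    rw [h1, hf, eval₂_rename]
  have hf0 : f ≠ 0 := by
    rintro rfl
    rw [mul_zero] at hFf
    exact hFx hFf
  have hordf : P.ord (eval₂ φ x F') = d * pord P x + P.ord f := by
    rw [hFf, P.ord_mul (pow_ne_zero _ hlam0) hf0, P.ord_pow, hlamo]
  have hHg : ∀ g, map ψ g = H → Ge P 1 (eval₂ φ z' g) := by
    intro g hg
    have h1 : g = rename Sum.inl F' := map_injective ψ ψ.injective (by rw [hg, hmF])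
    rw [h1, ← hf]
    right
    omega
  have hfin := hT1 j0 E ψ (fun t ht => hT t (hTa j0 t ht)) κ L P φ z'
    (fun s hs => hS' s (hTa j0 _ hs)) hint hvan hHg (X (Sum.inl j0) ^ r * rename Sum.inl F')
    (by rw [map_mul, map_pow, map_X, hmF])
  have hone : z' (Sum.inl j0) = 1 := by
    rw [hz']
    simp only [wts, Sum.elim_inl, pow_one]
    rw [← hlam, div_self hlam0]
  rw [eval₂_mul, eval₂_pow, eval₂_X, hone, one_pow, one_mul, ← hf] at hfin
  have hq := hfin.resolve_left hf0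
  rw [hordf]
  omega

end Pool.Agent.N617.RC
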